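import Pool.Agent.helper3.T6R.Spec

set_option autoImplicit false

namespace Pool.Agent.T6R

open Finset NumberField Pool.Agent.helper3.FT Pool.Agent.helper47.RA Pool.Agent.T5 Pool.Agent.T6
open scoped nonZeroDivisors

/-- two candidates cannot both be bad for the same unit vector -/
theorem RGE_two (a b x y x' y' : ℝ) (hw : a ^ 2 + b ^ 2 = 1) (hv : x ^ 2 + y ^ 2 = 1)
    (hv' : x' ^ 2 + y' ^ 2 = 1) (h : (336 / 625) ^ 2 ≤ (x * y' - y * x') ^ 2)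
    (h1 : (a * y - b * x) ^ 2 < 49 / 625) (h2 : (a * y' - b * x') ^ 2 < 49 / 625) : False := by
  set p := a * x + b * y with hp
  set q := a * x' + b * y' with hq
  set P := a * y - b * x with hP
  set Q := a * y' - b * x' with hQ
  have e1 : p ^ 2 = 1 - P ^ 2 := by
    have : p ^ 2 + P ^ 2 = (a ^ 2 + b ^ 2) * (x ^ 2 + y ^ 2) := by rw [hp, hP]; ring
    rw [hw, hv, one_mul] at this
    linarith
  have e2 : q ^ 2 = 1 - Q ^ 2 := by
    have : q ^ 2 + Q ^ 2 = (a ^ 2 + b ^ 2) * (x' ^ 2 + y' ^ 2) := by rw [hq, hQ]; ring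
    rw [hw, hv', one_mul] at this
    linarith
  have e3 : p * Q - P * q = x * y' - y * x' := by
    have : p * Q - P * q = (a ^ 2 + b ^ 2) * (x * y' - y * x') := by rw [hp, hq, hP, hQ]; ring
    rw [this, hw, one_mul]
  rw [← e3] at h
  have h3 : (p * Q - P * q) ^ 2 ≤ 2 * (p ^ 2 * Q ^ 2 + P ^ 2 * q ^ 2) := by
    nlinarith [sq_nonneg (p * Q + P * q)]
  rw [e1, e2] at h3
  have hP0 := sq_nonneg P
  have hQ0 := sq_nonneg Q
  generalize P ^ 2 = A at *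
  generalize Q ^ 2 = B at *
  generalize (p * Q - P * q) ^ 2 = E at *
  have h5 : 0 < (49 / 625 - A) * (1 - 2 * B) := mul_pos (by linarith) (by linarith)
  have h6 : 0 < (49 / 625 - B) * (1 - 2 * (49 / 625 : ℝ)) := mul_pos (by linarith) (by norm_num)
  nlinarith

theorem RGE_dir (w : Fin 4 → ℝ × ℝ) (hw : ∀ i, (w i).1 ^ 2 + (w i).2 ^ 2 = 1) :
    ∃ x y : ℝ, x ^ 2 + y ^ 2 = 1 ∧ ∀ i, 49 / 625 ≤ ((w i).1 * y - (w i).2 * x) ^ 2 := by
  set cx : Fin 5 → ℝ := ![1, 4 / 5, 7 / 25, -7 / 25, -4 / 5] with hcx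
  set cy : Fin 5 → ℝ := ![0, 3 / 5, 24 / 25, 24 / 25, 3 / 5] with hcy
  by_contra hcon
  push Not at hcon
  have hn : ∀ k, cx k ^ 2 + cy k ^ 2 = 1 := by
    intro k
    fin_cases k <;> norm_num [hcx, hcy]
  have hex : ∀ k, ∃ i, ((w i).1 * cy k - (w i).2 * cx k) ^ 2 < 49 / 625 := fun k =>
    hcon (cx k) (cy k) (hn k)
  choose g hg using hex
  obtain ⟨k, k', hne, he⟩ := Fintype.exists_ne_map_eq_of_card_lt g (by simp)
  have h2 := hg k
  have h3 := hg k'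
  rw [← he] at h3
  refine RGE_two _ _ _ _ _ _ (hw (g k)) (hn k) (hn k') ?_ h2 h3
  clear h2 h3 he hg g hcon hn
  fin_cases k <;> fin_cases k' <;> first | exact absurd rfl hne | (norm_num [hcx, hcy])

theorem RGE_unit (z : ℂ) (h : ‖z‖ = 1) : z.re ^ 2 + z.im ^ 2 = 1 := by
  have h1 := Complex.sq_norm z
  rw [h, Complex.normSq_apply] at h1
  linarith

theorem RGE_im (w : ℂ) (x y : ℝ) : ((starRingEnd ℂ) w * (⟨x, y⟩ : ℂ)).im = w.re * y - w.im * x := by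
  simp only [Complex.mul_im, Complex.conj_re, Complex.conj_im]
  ring

theorem RGE_abs (a : ℝ) (h : 49 / 625 ≤ a ^ 2) : 7 / 25 ≤ |a| := by
  rw [← Real.sqrt_sq_eq_abs]
  apply Real.le_sqrt_of_sq_le
  linarith

/-- the good direction -/
theorem RGE_good (u w₁ w₂ w₃ : ℂ) (hu : u ≠ 0) (h₁ : ‖w₁‖ = 1) (h₂ : ‖w₂‖ = 1) (h₃ : ‖w₃‖ = 1) :
    ∃ v : ℂ, ‖v‖ = 1 ∧ 7 / 25 * ‖u‖ ≤ |((starRingEnd ℂ) u * v).im| ∧ 7 / 25 ≤ |((starRingEnd ℂ) w₁ * v).im| ∧
      7 / 25 ≤ |((starRingEnd ℂ) w₂ * v).im| ∧ 7 / 25 ≤ |((starRingEnd ℂ) w₃ * v).im| := by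
  have hun : 0 < ‖u‖ := norm_pos_iff.2 hu
  have hun2 : u.re ^ 2 + u.im ^ 2 = ‖u‖ ^ 2 := by
    rw [Complex.sq_norm, Complex.normSq_apply]
    ring
  obtain ⟨x, y, hxy, hw⟩ := RGE_dir ![(w₁.re, w₁.im), (w₂.re, w₂.im), (w₃.re, w₃.im), (u.re / ‖u‖, u.im / ‖u‖)] (by
    intro i
    fin_cases i
    · exact RGE_unit w₁ h₁
    · exact RGE_unit w₂ h₂
    · exact RGE_unit w₃ h₃
    · change (u.re / ‖u‖) ^ 2 + (u.im / ‖u‖) ^ 2 = 1
      field_simp
      exact hun2)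
  have w1 : 49 / 625 ≤ (w₁.re * y - w₁.im * x) ^ 2 := hw 0
  have w2 : 49 / 625 ≤ (w₂.re * y - w₂.im * x) ^ 2 := hw 1
  have w3 : 49 / 625 ≤ (w₃.re * y - w₃.im * x) ^ 2 := hw 2
  have w4 : 49 / 625 ≤ (u.re / ‖u‖ * y - u.im / ‖u‖ * x) ^ 2 := hw 3
  refine ⟨⟨x, y⟩, ?_, ?_, ?_, ?_, ?_⟩
  · rw [Complex.norm_def, Complex.normSq_apply]
    change √(x * x + y * y) = 1
    have : x * x + y * y = 1 := by linarith
    rw [this, Real.sqrt_one]
  · rw [RGE_im]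
    have h5 := RGE_abs _ w4
    have h6 : (u.re / ‖u‖ * y - u.im / ‖u‖ * x) * ‖u‖ = u.re * y - u.im * x := by
      field_simp
    rw [← h6, abs_mul, abs_of_pos hun]
    exact mul_le_mul_of_nonneg_right h5 hun.le
  · rw [RGE_im]
    exact RGE_abs _ w1
  · rw [RGE_im]
    exact RGE_abs _ w2
  · rw [RGE_im]
    exact RGE_abs _ w3

/-- transfer of a good direction to a near vector -/
theorem RGE_near (w v z : ℂ) (t : ℝ) (ht : 0 < t) (hw : ‖w‖ = 1) (h : 7 / 25 ≤ |((starRingEnd ℂ) w * v).im|)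
    (hd : ‖z - t * v‖ ≤ t / 50) (hz : ‖z‖ ≤ t + t / 50) : ‖z‖ ≤ 4 * |((starRingEnd ℂ) w * z).im| := by
  have h1 : ((starRingEnd ℂ) w * ((t : ℂ) * v)).im = t * ((starRingEnd ℂ) w * v).im := by
    have e : (starRingEnd ℂ) w * ((t : ℂ) * v) = (t : ℂ) * ((starRingEnd ℂ) w * v) := by ring
    rw [e, Complex.im_ofReal_mul]
  have h2 : 7 / 25 * t ≤ |((starRingEnd ℂ) w * ((t : ℂ) * v)).im| := by
    rw [h1, abs_mul, abs_of_pos ht, mul_comm]
    exact mul_le_mul_of_nonneg_left h ht.le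
  have h3 : |((starRingEnd ℂ) w * (z - t * v)).im| ≤ t / 50 := by
    refine (Complex.abs_im_le_norm _).trans ?_
    rw [norm_mul, RCLike.norm_conj, hw, one_mul]
    exact hd
  have h4 : ((starRingEnd ℂ) w * ((t : ℂ) * v)).im = ((starRingEnd ℂ) w * z).im -
      ((starRingEnd ℂ) w * (z - t * v)).im := by
    rw [← Complex.sub_im]
    congr 1
    ring
  have h5 : |((starRingEnd ℂ) w * ((t : ℂ) * v)).im| ≤ |((starRingEnd ℂ) w * z).im| +
      |((starRingEnd ℂ) w * (z - t * v)).im| := by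
    rw [h4, sub_eq_add_neg]
    refine (abs_add_le _ _).trans (le_of_eq ?_)
    rw [abs_neg]
  linarith

theorem RGE : RGE_stmt := by
  intro u₁ u₂ w₁ w₂ w₃ R V hV hdet h₁ h₂ h₃ hRV hR
  have hu : u₁ ≠ 0 := by
    rintro rfl
    simp at hdet
    linarith
  have hun : 0 < ‖u₁‖ := norm_pos_iff.2 hu
  have hR0 : 0 < R := by linarith [mul_pos (by norm_num : (0:ℝ) < 300) hun]
  obtain ⟨v, hvn, hvu, hv1, hv2, hv3⟩ := RGE_good u₁ w₁ w₂ w₃ hu h₁ h₂ h₃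
  set σ : ℝ := |((starRingEnd ℂ) u₁ * v).im| with hσ
  have hσ0 : 0 < σ := lt_of_lt_of_le (by positivity) hvu
  have hσle : σ ≤ ‖u₁‖ := by
    rw [hσ]
    refine (Complex.abs_im_le_norm _).trans ?_
    rw [norm_mul, RCLike.norm_conj, hvn, mul_one]
  -- the power of two
  have hf : 1 ≤ R / 3 * σ / V := by
    rw [le_div_iff₀ hV, one_mul]
    have h6 : R * (7 / 25 * ‖u₁‖) ≤ R * σ := mul_le_mul_of_nonneg_left hvu hR0.le
    nlinarith
  obtain ⟨n, hn1, hn2⟩ := exists_nat_pow_near hf (by norm_num : (1 : ℝ) < 2)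
  set t : ℝ := 2 ^ (n + 1) * V / σ with ht
  have ht0 : 0 < t := by positivity
  have htσ : t * σ = 2 ^ (n + 1) * V := by
    rw [ht]
    field_simp
  have ht1 : R < 3 * t := by
    rw [div_lt_iff₀ hV] at hn2
    rw [← htσ] at hn2
    have h1 : R / 3 < t := lt_of_mul_lt_mul_right hn2 hσ0.le
    linarith
  have ht2 : 3 * t ≤ 2 * R := by
    rw [le_div_iff₀ hV] at hn1
    have h0 : t * σ ≤ 2 * (R / 3 * σ) := by
      rw [htσ, pow_succ]
      linarith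
    have h1 : t ≤ 2 * (R / 3) := by
      have h2 : t * σ ≤ 2 * (R / 3) * σ := by linarith
      exact le_of_mul_le_mul_right h2 hσ0
    linarith
  -- the sign
  obtain ⟨j, hj, hjV⟩ : ∃ j : ℤ, |j| = 2 ^ (n + 1) ∧
      (j : ℝ) * ((starRingEnd ℂ) u₁ * u₂).im = t * ((starRingEnd ℂ) u₁ * v).im := by
    have h2 : |(2 : ℤ) ^ (n + 1)| = 2 ^ (n + 1) := abs_of_pos (by positivity)
    rcases abs_choice ((starRingEnd ℂ) u₁ * u₂).im with h | h <;>
      rcases abs_choice ((starRingEnd ℂ) u₁ * v).im with h' | h' <;>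
      rw [h] at hdet <;> rw [← hσ] at h'
    · refine ⟨2 ^ (n + 1), h2, ?_⟩
      rw [hdet, ← h', htσ]
      push_cast
      ring
    · refine ⟨-2 ^ (n + 1), by rw [abs_neg, h2], ?_⟩
      have h3 : ((starRingEnd ℂ) u₁ * v).im = -σ := by linarith
      rw [hdet, h3, mul_neg, htσ]
      push_cast
      ring
    · refine ⟨-2 ^ (n + 1), by rw [abs_neg, h2], ?_⟩
      have h3 : ((starRingEnd ℂ) u₁ * u₂).im = -V := by linarith
      rw [h3, ← h', htσ]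
      push_cast
      ring
    · refine ⟨2 ^ (n + 1), h2, ?_⟩
      have h3 : ((starRingEnd ℂ) u₁ * u₂).im = -V := by linarith
      have h4 : ((starRingEnd ℂ) u₁ * v).im = -σ := by linarith
      rw [h3, h4, mul_neg, mul_neg, htσ]
      push_cast
      ring
  -- the real coordinate
  set xs : ℝ := ((starRingEnd ℂ) u₁ * (t * v - j * u₂)).re / ‖u₁‖ ^ 2 with hxs
  have hline : (t : ℂ) * v - j * u₂ = xs * u₁ := by
    have him : ((starRingEnd ℂ) u₁ * (t * v - j * u₂)).im = 0 := by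
      have e : (starRingEnd ℂ) u₁ * ((t : ℂ) * v - j * u₂) =
          (t : ℂ) * ((starRingEnd ℂ) u₁ * v) - ((j : ℝ) : ℂ) * ((starRingEnd ℂ) u₁ * u₂) := by
        push_cast
        ring
      rw [e, Complex.sub_im, Complex.im_ofReal_mul, Complex.im_ofReal_mul, hjV, sub_self]
    have hw : (starRingEnd ℂ) u₁ * (t * v - j * u₂) =
        ((((starRingEnd ℂ) u₁ * (t * v - j * u₂)).re : ℝ) : ℂ) := by
      apply Complex.ext
      · rw [Complex.ofReal_re]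
      · rw [Complex.ofReal_im, him]
    have hn : (starRingEnd ℂ) u₁ * u₁ = ((‖u₁‖ ^ 2 : ℝ) : ℂ) := by
      rw [mul_comm, Complex.mul_conj, Complex.normSq_eq_norm_sq]
    have hne : (starRingEnd ℂ) u₁ ≠ 0 := by
      rw [Ne, map_eq_zero]
      exact hu
    apply mul_left_cancel₀ hne
    rw [hw, hxs, mul_left_comm, hn, ← Complex.ofReal_mul]
    congr 1
    field_simp
  have hjr : |(j : ℝ)| = 2 ^ (n + 1) := by
    rw [← Int.cast_abs, hj]
    push_cast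
    rfl
  refine ⟨j, ⌈xs⌉, n + 1, hj, ?_, fun x hx hx2 => ?_⟩
  · rw [hjr, ← htσ]
    have h1 : t * σ ≤ t * ‖u₁‖ := mul_le_mul_of_nonneg_left hσle ht0.le
    have h2 : t ≤ R := by linarith
    have h3 : t * ‖u₁‖ ≤ R * ‖u₁‖ := mul_le_mul_of_nonneg_right h2 hun.le
    linarith
  set z : ℂ := (x : ℂ) * u₁ + j * u₂ with hz
  have hzt : z - t * v = ((x : ℝ) - xs : ℝ) * u₁ := by
    have h1 : (j : ℂ) * u₂ = t * v - xs * u₁ := by rw [← hline]; ring
    rw [hz, h1]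
    push_cast
    ring
  have hd : ‖z - t * v‖ ≤ t / 50 := by
    have hx' : (⌈xs⌉ : ℝ) ≤ x := by exact_mod_cast hx
    have h1 : xs ≤ ⌈xs⌉ := Int.le_ceil _
    have h2 : (⌈xs⌉ : ℝ) < xs + 1 := Int.ceil_lt_add_one _
    rw [hzt, norm_mul, Complex.norm_real, Real.norm_eq_abs, abs_of_nonneg (by linarith)]
    have h3 : ((x : ℝ) - xs) * ‖u₁‖ ≤ (1 + ((x : ℝ) - ⌈xs⌉)) * ‖u₁‖ :=
      mul_le_mul_of_nonneg_right (by linarith) hun.le
    nlinarith
  have htv : ‖(t : ℂ) * v‖ = t := by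
    rw [norm_mul, Complex.norm_real, Real.norm_eq_abs, abs_of_pos ht0, hvn, mul_one]
  have hz1 : t - t / 50 ≤ ‖z‖ := by
    have h1 : ‖(t : ℂ) * v‖ ≤ ‖z‖ + ‖z - t * v‖ := by
      have h2 : (t : ℂ) * v = z - (z - t * v) := by ring
      calc ‖(t : ℂ) * v‖ = ‖z - (z - t * v)‖ := by rw [← h2]
        _ ≤ ‖z‖ + ‖z - t * v‖ := norm_sub_le _ _
    rw [htv] at h1
    linarith
  have hz2 : ‖z‖ ≤ t + t / 50 := by
    have h1 : ‖z‖ ≤ ‖(t : ℂ) * v‖ + ‖z - t * v‖ := by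
      have h2 : z = t * v + (z - t * v) := by ring
      calc ‖z‖ = ‖t * v + (z - t * v)‖ := by rw [← h2]
        _ ≤ _ := norm_add_le _ _
    rw [htv] at h1
    linarith
  exact ⟨by linarith, by linarith, RGE_near w₁ v z t ht0 h₁ hv1 hd hz2, RGE_near w₂ v z t ht0 h₂ hv2 hd hz2,
    RGE_near w₃ v z t ht0 h₃ hv3 hd hz2⟩

end Pool.Agent.T6R
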